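import Mathlib
import Pool.Agent.H35.DD5

set_option autoImplicit false

namespace Pool.Agent.Results.MP_a74ba6_co.Half

/-- For `r ≥ 3`, every orientation `A` of an `r`-regular graph on `n` vertices has a dominating
set of size at most `n / 2`. -/
theorem result : ∀ (r : ℕ), 3 ≤ r → ∀ (V : Type) [Fintype V] [DecidableEq V] (G : SimpleGraph V)
    [DecidableRel G.Adj], G.IsRegularOfDegree r → ∀ A : V → V → Prop,
      (∀ u v, A u v → G.Adj u v) → (∀ u v, G.Adj u v → (A u v ↔ ¬ A v u)) →
      ∃ D : Finset V, (∀ v, v ∉ D → ∃ u ∈ D, A u v) ∧ 2 * D.card ≤ Fintype.card V := by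
  intro r hr V _ _ G _ reg A _ h
  refine Pool.Agent.H35.DD.main hr reg A (fun u v uv => ?_)
  by_cases x : A v u
  · exact Or.inr x
  · exact Or.inl ((h u v uv).2 x)

end Pool.Agent.Results.MP_a74ba6_co.Half
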